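import Pool.Agent.X183.Tang.Disc

/-!
# A parabolic semigroup of positive hyperbolic step with slow tangential speed

There is a parabolic semigroup of positive hyperbolic step whose tangential speed is not
`(1/2) log t + O(1)` (it is at most `(1/4) log t + O(1)` along the whole orbit).
-/

set_option autoImplicit false

namespace Pool.Agent.Results.MP_ab13d2_an.SlowTangentialSpeed

open Pool.Agent.X183.Tang

theorem result : ∃ (φ : ℝ → ℂ → ℂ) (τ : ℂ),
    IsNonellipticSemigroup φ ∧ IsPositiveStep φ ∧ IsDenjoyWolff φ τ ∧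
      ¬ ∃ K : ℝ, 0 < K ∧ ∀ t : ℝ, 1 ≤ t →
        |tangentialSpeed φ τ t - (1 / 2) * Real.log t| < K :=
  ⟨φ, 1, isSemigroup, isPositiveStep, isDenjoyWolff, not_half_log⟩

end Pool.Agent.Results.MP_ab13d2_an.SlowTangentialSpeed
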